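import Pool.Agent.H.MP_523900_gt.K

namespace Pool.Agent.Results.MP_523900_gt.Yes

open Set Filter Topology MeasureTheory Metric Pool.Agent.H.MP_523900_gt
open scoped ENNReal NNReal

theorem result (K : Set (EuclideanSpace ℝ (Fin 3))) (hK : IsCompact K) (hc : Convex ℝ K)
    (hi : (interior K).Nonempty) :
    Measure.euclideanHausdorffMeasure 2 (frontier K) ≠ ⊤ ∧
      Tendsto (fun ε : ℝ => ENNReal.ofReal ε * LS (frontier K) ε) (𝓝[>] 0)
        (𝓝 (Measure.euclideanHausdorffMeasure 2 (frontier K) / 2)) := by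
  obtain ⟨c, hc0⟩ := hi
  set K0 : Set E := (Homeomorph.addLeft c) ⁻¹' K with hK0
  have k1 : Convex ℝ K0 := hc.translate_preimage_right c
  have k2 : K0 ∈ 𝓝 (0 : E) := by
    apply (Homeomorph.addLeft c).continuous.continuousAt.preimage_mem_nhds
    simpa using mem_interior_iff_mem_nhds.1 hc0
  have k3 : IsCompact K0 := (Homeomorph.addLeft c).isCompact_preimage.2 hK
  have k4 : Absorbent ℝ K0 := absorbent_nhds_zero k2
  have hg : IsG (gauge K0) := by
    refine ⟨⟨convex_univ, fun x _ y _ s t hs ht _ => ?_⟩, k1.lipschitz_gauge k2,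
      fun t ht z => gauge_smul_of_nonneg ht z, ?_⟩
    · refine (gauge_add_le k1 k4 _ _).trans ?_
      rw [gauge_smul_of_nonneg hs, gauge_smul_of_nonneg ht]
    · obtain ⟨R, R0, hR⟩ := k3.isBounded.subset_closedBall_lt 0 0
      refine ⟨R, R0, fun z => ?_⟩
      have := le_gauge_of_subset_closedBall (x := z) k4 R0.le hR
      rwa [div_le_iff₀' R0] at this
  have e : frontier K = sf (gauge K0) c := by
    ext x
    rw [sf, mem_setOf_eq, gauge_eq_one_iff_mem_frontier k1 k2, hK0,
      ← Homeomorph.preimage_frontier]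
    simp
  rw [e]
  exact ⟨hg.finite, hg.main⟩

end Pool.Agent.Results.MP_523900_gt.Yes
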